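import Mathlib

/-!
Sensitivity and block sensitivity of Boolean functions: definitions and the basic
exchange inequality used by the hand-ins for MP_3ad543_lc.
-/

namespace Pool.Agent.Sens

open Finset

variable {n : ℕ}

/-- The input `x` with the bits in `S` flipped. -/
def flipSet (x : Fin n → Bool) (S : Finset (Fin n)) : Fin n → Bool :=
  fun i => if i ∈ S then !(x i) else x i

/-- The set of all `k` such that there are `k` pairwise disjoint nonempty sets `B j` of
coordinates, each of size at most `p`, with `f (x^{B j}) ≠ f x` for every `j`. -/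
def blockCounts (f : (Fin n → Bool) → Bool) (p : ℕ∞) (x : Fin n → Bool) : Set ℕ :=
  {k | ∃ B : Fin k → Finset (Fin n),
    (∀ j, (B j).Nonempty) ∧ (∀ j, ((B j).card : ℕ∞) ≤ p) ∧
    (∀ i j, i ≠ j → Disjoint (B i) (B j)) ∧ ∀ j, f (flipSet x (B j)) ≠ f x}

/-- `bs_p(f, x)`: the largest number of pairwise disjoint nonempty sensitive blocks of size
at most `p` at the input `x`. -/
noncomputable def bsAt (f : (Fin n → Bool) → Bool) (p : ℕ∞) (x : Fin n → Bool) : ℕ :=
  sSup (blockCounts f p x)

/-- `bs_p^v(f)`: the maximum of `bs_p(f, x)` over the inputs `x` with `f x = v`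
(`0` if there are none). -/
noncomputable def bsVal (f : (Fin n → Bool) → Bool) (p : ℕ∞) (v : Bool) : ℕ :=
  (univ.filter fun x => f x = v).sup (bsAt f p)

/-- `s(f, x)`: the number of coordinates `i` with `f (x^i) ≠ f x`. -/
def sensAt (f : (Fin n → Bool) → Bool) (x : Fin n → Bool) : ℕ :=
  (univ.filter fun i => f (flipSet x {i}) ≠ f x).card

/-- `s_v(f)`: the maximum of `s(f, x)` over the inputs `x` with `f x = v`
(`0` if there are none). -/
def sensVal (f : (Fin n → Bool) → Bool) (v : Bool) : ℕ :=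
  (univ.filter fun x => f x = v).sup (sensAt f)

/-! ### Flips -/

lemma flipSet_comm (x : Fin n → Bool) (S T : Finset (Fin n)) :
    flipSet (flipSet x S) T = flipSet (flipSet x T) S := by
  funext i
  simp only [flipSet]
  by_cases h1 : i ∈ S <;> by_cases h2 : i ∈ T <;> simp [h1, h2]

lemma flipSet_self (x : Fin n → Bool) (S : Finset (Fin n)) :
    flipSet (flipSet x S) S = x := by
  funext i
  simp only [flipSet]
  by_cases h1 : i ∈ S <;> simp [h1]

@[simp] lemma flipSet_empty (x : Fin n → Bool) : flipSet x ∅ = x := by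
  funext i
  simp [flipSet]

lemma flipSet_flipSet_sdiff (x : Fin n → Bool) {S T : Finset (Fin n)} (h : S ⊆ T) :
    flipSet (flipSet x S) (T \ S) = flipSet x T := by
  funext i
  simp only [flipSet, mem_sdiff]
  by_cases h1 : i ∈ S
  · have h2 := h h1
    simp [h1, h2]
  · by_cases h2 : i ∈ T <;> simp [h1, h2]

lemma flipSet_erase (x : Fin n → Bool) {T : Finset (Fin n)} {y : Fin n} (h : y ∈ T) :
    flipSet (flipSet x T) {y} = flipSet x (T.erase y) := by
  funext i
  simp only [flipSet, mem_singleton, mem_erase]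
  by_cases h1 : i = y
  · subst h1; simp [h]
  · by_cases h2 : i ∈ T <;> simp [h1, h2]

/-! ### Block sensitivity as a maximum -/

lemma card_le_of_disjoint_nonempty {k : ℕ} (B : Fin k → Finset (Fin n))
    (h1 : ∀ j, (B j).Nonempty) (h2 : ∀ i j, i ≠ j → Disjoint (B i) (B j)) : k ≤ n := by
  choose y hy using h1
  have hinj : Function.Injective y := by
    intro i j hij
    by_contra hne
    have := Finset.disjoint_left.mp (h2 i j hne) (hy i)
    exact this (hij ▸ hy j)
  simpa using Fintype.card_le_of_injective y hinj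

lemma bddAbove_blockCounts (f : (Fin n → Bool) → Bool) (p : ℕ∞) (x : Fin n → Bool) :
    BddAbove (blockCounts f p x) := by
  refine ⟨n, ?_⟩
  rintro k ⟨B, h1, -, h2, -⟩
  exact card_le_of_disjoint_nonempty B h1 h2

lemma zero_mem_blockCounts (f : (Fin n → Bool) → Bool) (p : ℕ∞) (x : Fin n → Bool) :
    0 ∈ blockCounts f p x :=
  ⟨fun j => j.elim0, fun j => j.elim0, fun j => j.elim0, fun j => j.elim0, fun j => j.elim0⟩

lemma bsAt_mem (f : (Fin n → Bool) → Bool) (p : ℕ∞) (x : Fin n → Bool) :
    bsAt f p x ∈ blockCounts f p x :=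
  Nat.sSup_mem ⟨0, zero_mem_blockCounts f p x⟩ (bddAbove_blockCounts f p x)

lemma bsAt_le_bsVal (f : (Fin n → Bool) → Bool) (p : ℕ∞) {x : Fin n → Bool} {v : Bool}
    (h : f x = v) : bsAt f p x ≤ bsVal f p v :=
  Finset.le_sup (f := bsAt f p) (by simp [h])

/-- A finset-indexed family of pairwise disjoint nonempty sensitive blocks is a lower bound. -/
lemma card_le_bsAt {κ : Type*} (f : (Fin n → Bool) → Bool) (p : ℕ∞) (x : Fin n → Bool)
    (T : Finset κ) (B : κ → Finset (Fin n))
    (h1 : ∀ j ∈ T, (B j).Nonempty) (h2 : ∀ j ∈ T, ((B j).card : ℕ∞) ≤ p)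
    (h3 : ∀ i ∈ T, ∀ j ∈ T, i ≠ j → Disjoint (B i) (B j))
    (h4 : ∀ j ∈ T, f (flipSet x (B j)) ≠ f x) : T.card ≤ bsAt f p x := by
  apply le_csSup (bddAbove_blockCounts f p x)
  let e := T.equivFin.symm
  refine ⟨fun j => B (e j), fun j => h1 _ (e j).2, fun j => h2 _ (e j).2, ?_, fun j => h4 _ (e j).2⟩
  intro i j hij
  apply h3 _ (e i).2 _ (e j).2
  intro h
  apply hij
  exact e.injective (Subtype.ext h)

/-- The same with one extra block `E` disjoint from all the others. -/
lemma card_succ_le_bsAt {κ : Type*} (f : (Fin n → Bool) → Bool) (p : ℕ∞) (x : Fin n → Bool)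
    (T : Finset κ) (B : κ → Finset (Fin n)) (E : Finset (Fin n))
    (h1 : ∀ j ∈ T, (B j).Nonempty) (h2 : ∀ j ∈ T, ((B j).card : ℕ∞) ≤ p)
    (h3 : ∀ i ∈ T, ∀ j ∈ T, i ≠ j → Disjoint (B i) (B j))
    (h4 : ∀ j ∈ T, f (flipSet x (B j)) ≠ f x)
    (e1 : E.Nonempty) (e2 : ((E.card : ℕ∞)) ≤ p) (e3 : ∀ j ∈ T, Disjoint E (B j))
    (e4 : f (flipSet x E) ≠ f x) : T.card + 1 ≤ bsAt f p x := by
  classical
  have := card_le_bsAt f p x (insertNone T) (fun o : Option κ => o.elim E B) ?_ ?_ ?_ ?_
  · simpa using this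
  · rintro (_ | j) hj
    · exact e1
    · exact h1 j (by simpa using hj)
  · rintro (_ | j) hj
    · exact e2
    · exact h2 j (by simpa using hj)
  · rintro (_ | i) hi (_ | j) hj hij
    · exact absurd rfl hij
    · exact e3 j (by simpa using hj)
    · exact (e3 i (by simpa using hi)).symm
    · exact h3 i (by simpa using hi) j (by simpa using hj) (fun h => hij (by rw [h]))
  · rintro (_ | j) hj
    · exact e4
    · exact h4 j (by simpa using hj)

lemma bsVal_exists (f : (Fin n → Bool) → Bool) (p : ℕ∞) (v : Bool) (h : 0 < bsVal f p v) :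
    ∃ x, f x = v ∧ bsAt f p x = bsVal f p v := by
  have hne : (univ.filter fun x => f x = v).Nonempty := by
    by_contra hcon
    rw [Finset.not_nonempty_iff_eq_empty] at hcon
    simp [bsVal, hcon] at h
  obtain ⟨x, hx, hx2⟩ := Finset.exists_mem_eq_sup _ hne (bsAt f p)
  exact ⟨x, by simpa using hx, hx2.symm⟩

end Pool.Agent.Sens
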