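import Pool.Agent.Sens.Basic

/-!
The exchange inequality: `bs_{p+q}^v(f) + 2 bs_q^v(f) ≤ 4 bs_p^{1-v}(f) bs_q^v(f)`.
-/

namespace Pool.Agent.Sens

open Finset

variable {n : ℕ}

/-- Every block that changes the value contains a minimal one. -/
lemma exists_minimal_block (f : (Fin n → Bool) → Bool) (z : Fin n → Bool) (v : Bool)
    (C : Finset (Fin n)) (h : f (flipSet z C) ≠ v) :
    ∃ D ⊆ C, f (flipSet z D) ≠ v ∧ ∀ E, E ⊂ D → f (flipSet z E) = v := by
  classical
  have hne : (C.powerset.filter fun D => f (flipSet z D) ≠ v).Nonempty :=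
    ⟨C, by simp [h]⟩
  obtain ⟨D, hD, hmin⟩ := Finset.exists_min_image _ (fun D => D.card) hne
  simp only [mem_filter, mem_powerset] at hD hmin
  refine ⟨D, hD.1, hD.2, fun E hE => ?_⟩
  by_contra hcon
  have h1 := hmin E ⟨hE.subset.trans hD.1, hcon⟩
  have h2 := Finset.card_lt_card hE
  omega

/-- If some block changes the value at a `v`-input, some `(!v)`-input has a sensitive bit. -/
lemma one_le_bsVal_not (f : (Fin n → Bool) → Bool) (p : ℕ∞) (hp : 1 ≤ p) (z : Fin n → Bool)
    (v : Bool) (hz : f z = v) (C : Finset (Fin n)) (h : f (flipSet z C) ≠ v) :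
    1 ≤ bsVal f p (!v) := by
  classical
  obtain ⟨D, -, hD, hmin⟩ := exists_minimal_block f z v C h
  have hDne : D.Nonempty := by
    rw [Finset.nonempty_iff_ne_empty]
    rintro rfl
    simp [hz] at hD
  obtain ⟨y, hy⟩ := hDne
  have hw : f (flipSet z D) = !v := by
    cases hv : f (flipSet z D) <;> cases v <;> simp_all
  refine le_trans ?_ (bsAt_le_bsVal f p hw)
  have := card_le_bsAt f p (flipSet z D) {()} (fun _ => {y}) (by simp) (by simpa using hp)
    (by simp) ?_
  · simpa using this
  · intro _ _
    rw [flipSet_erase z hy, hmin _ (Finset.erase_ssubset hy), hw]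
    cases v <;> simp

/-- Splitting a nonempty block of size at most `p + q` into a part of size at most `p` and a
nonempty part of size at most `q`. -/
lemma exists_split (p q : ℕ∞) (hq : 1 ≤ q) (D : Finset (Fin n)) (hne : D.Nonempty)
    (hD : (D.card : ℕ∞) ≤ p + q) :
    ∃ X, X ⊂ D ∧ (X.card : ℕ∞) ≤ p ∧ ((D \ X).card : ℕ∞) ≤ q := by
  classical
  have hpos : 0 < D.card := hne.card_pos
  rcases eq_or_ne q ⊤ with rfl | hqt
  · refine ⟨∅, ?_, by simp, le_top⟩
    exact Finset.empty_ssubset.mpr hne
  · lift q to ℕ using hqt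
    have hq' : 1 ≤ q := by exact_mod_cast hq
    obtain ⟨X, hX, hcard⟩ := Finset.exists_subset_card_eq (s := D) (n := D.card - q) (by omega)
    refine ⟨X, ?_, ?_, ?_⟩
    · refine ⟨hX, fun hcon => ?_⟩
      have := Finset.card_le_card hcon
      omega
    · rw [hcard]
      rcases eq_or_ne p ⊤ with rfl | hpt
      · exact le_top
      · lift p to ℕ using hpt
        have : D.card ≤ p + q := by exact_mod_cast hD
        have h2 : D.card - q ≤ p := by omega
        exact_mod_cast h2
    · rw [Finset.card_sdiff_of_subset hX, hcard]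
      have : D.card - (D.card - q) ≤ q := by omega
      exact_mod_cast this

/-- A configuration of the exchange argument, relative to disjoint blocks `B i`. -/
structure Cfg (f : (Fin n → Bool) → Bool) (v : Bool) (q : ℕ∞) {k : ℕ}
    (B : Fin k → Finset (Fin n)) where
  z : Fin n → Bool
  J : Finset (Fin k)
  L : Finset (Fin k)
  C : Fin k → Finset (Fin n)
  hz : f z = v
  hdisj : Disjoint J L
  hC : ∀ i, C i ⊆ B i
  hJ : ∀ i ∈ J, ((C i).card : ℕ∞) ≤ q
  hJne : ∀ i ∈ J, f (flipSet z (C i)) ≠ v
  hLne : ∀ i ∈ L, f (flipSet z (C i)) ≠ v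

/-- The potential. -/
def Cfg.pot {f : (Fin n → Bool) → Bool} {v : Bool} {q : ℕ∞} {k : ℕ}
    {B : Fin k → Finset (Fin n)} (b : ℕ) (c : Cfg f v q B) : ℕ :=
  2 * b * c.J.card + c.L.card

lemma Cfg.card_J_le {f : (Fin n → Bool) → Bool} {v : Bool} {q : ℕ∞} {k : ℕ}
    {B : Fin k → Finset (Fin n)} (hB : ∀ i j, i ≠ j → Disjoint (B i) (B j))
    (c : Cfg f v q B) : c.J.card ≤ bsVal f q v := by
  refine le_trans ?_ (bsAt_le_bsVal f q c.hz)
  apply card_le_bsAt f q c.z c.J c.C
  · intro j hj
    rw [Finset.nonempty_iff_ne_empty]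
    intro h0
    have := c.hJne j hj
    simp [h0, c.hz] at this
  · exact c.hJ
  · intro i _ j _ hij
    exact Finset.disjoint_of_subset_left (c.hC i)
      (Finset.disjoint_of_subset_right (c.hC j) (hB i j hij))
  · intro j hj
    rw [c.hz]
    exact c.hJne j hj

/-- The counting step at a configuration of maximal potential. -/
lemma Cfg.max_bound {f : (Fin n → Bool) → Bool} {v : Bool} {p q : ℕ∞} {k : ℕ}
    {B : Fin k → Finset (Fin n)} (hp : 1 ≤ p) (hq : 1 ≤ q)
    (hB : ∀ i j, i ≠ j → Disjoint (B i) (B j))
    (hsize : ∀ i, ((B i).card : ℕ∞) ≤ p + q)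
    (hb : 1 ≤ bsVal f p (!v))
    (c : Cfg f v q B)
    (hmax : ∀ c' : Cfg f v q B, c'.pot (bsVal f p (!v)) ≤ c.pot (bsVal f p (!v))) :
    c.L.card + 2 * c.J.card ≤ 2 * bsVal f p (!v) * c.J.card := by
  classical
  set b := bsVal f p (!v) with hbdef
  -- minimal sub-blocks
  have hmin : ∀ i, ∃ D ⊆ c.C i, (i ∈ c.J ∪ c.L → f (flipSet c.z D) ≠ v ∧
      ∀ E, E ⊂ D → f (flipSet c.z E) = v) := by
    intro i
    by_cases hi : i ∈ c.J ∪ c.L
    · have h1 : f (flipSet c.z (c.C i)) ≠ v := by
        rcases Finset.mem_union.mp hi with h | h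
        · exact c.hJne i h
        · exact c.hLne i h
      obtain ⟨D, hD, h2, h3⟩ := exists_minimal_block f c.z v (c.C i) h1
      exact ⟨D, hD, fun _ => ⟨h2, h3⟩⟩
    · exact ⟨c.C i, subset_rfl, fun h => absurd h hi⟩
  choose D hDC hDprop using hmin
  have hDB : ∀ i, D i ⊆ B i := fun i => (hDC i).trans (c.hC i)
  have hDdisj : ∀ i j, i ≠ j → Disjoint (D i) (D j) := fun i j hij =>
    Finset.disjoint_of_subset_left (hDB i) (Finset.disjoint_of_subset_right (hDB j) (hB i j hij))
  have hDne : ∀ i ∈ c.J ∪ c.L, (D i).Nonempty := by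
    intro i hi
    rw [Finset.nonempty_iff_ne_empty]
    intro h0
    have := (hDprop i hi).1
    simp [h0, c.hz] at this
  -- the moves
  have hX : ∀ i, ∃ X ⊆ D i, i ∈ c.L → (X ⊂ D i ∧ (X.card : ℕ∞) ≤ p ∧
      (((D i) \ X).card : ℕ∞) ≤ q) := by
    intro i
    by_cases hi : i ∈ c.L
    · have hne := hDne i (Finset.mem_union_right _ hi)
      have hs : ((D i).card : ℕ∞) ≤ p + q := by
        refine le_trans ?_ (hsize i)
        exact_mod_cast Finset.card_le_card (hDB i)
      obtain ⟨X, h1, h2, h3⟩ := exists_split p q hq (D i) hne hs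
      exact ⟨X, h1.subset, fun _ => ⟨h1, h2, h3⟩⟩
    · exact ⟨∅, by simp, fun h => absurd h hi⟩
  choose X hXD hXprop using hX
  -- tracked inputs are destroyed by few moves
  have hw : ∀ j ∈ c.J ∪ c.L, f (flipSet c.z (D j)) = !v := by
    intro j hj
    have := (hDprop j hj).1
    cases hv : f (flipSet c.z (D j)) <;> cases v <;> simp_all
  have hkill : ∀ j ∈ c.J ∪ c.L,
      ((c.L.erase j).filter fun i => f (flipSet (flipSet c.z (X i)) (D j)) = v).card + 1 ≤ b := by
    intro j hj
    refine le_trans ?_ (bsAt_le_bsVal f p (hw j hj))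
    obtain ⟨y, hy⟩ := hDne j hj
    apply card_succ_le_bsAt f p (flipSet c.z (D j)) _ X {y}
    · intro i hi
      simp only [mem_filter, mem_erase] at hi
      rw [Finset.nonempty_iff_ne_empty]
      intro h0
      have h1 := hi.2
      rw [h0, flipSet_empty, hw j hj] at h1
      cases v <;> simp at h1
    · intro i hi
      simp only [mem_filter, mem_erase] at hi
      exact (hXprop i hi.1.2).2.1
    · intro i _ i' _ hii
      exact Finset.disjoint_of_subset_left (hXD i)
        (Finset.disjoint_of_subset_right (hXD i') (hDdisj i i' hii))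
    · intro i hi
      simp only [mem_filter, mem_erase] at hi
      rw [flipSet_comm, hi.2, hw j hj]
      cases v <;> simp
    · simp
    · simpa using hp
    · intro i hi
      simp only [mem_filter, mem_erase] at hi
      exact Finset.disjoint_of_subset_left (Finset.singleton_subset_iff.mpr hy)
        (Finset.disjoint_of_subset_right (hXD i) (hDdisj j i (Ne.symm hi.1.1)))
    · rw [flipSet_erase c.z hy, (hDprop j hj).2 _ (Finset.erase_ssubset hy), hw j hj]
      cases v <;> simp
  -- the moved configurations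
  have hstep : ∀ i ∈ c.L, 2 * b ≤
      2 * b * (c.J.filter fun j => f (flipSet (flipSet c.z (X i)) (D j)) = v).card + 1 +
      ((c.L.erase i).filter fun j => f (flipSet (flipSet c.z (X i)) (D j)) = v).card := by
    intro i hi
    have hiu : i ∈ c.J ∪ c.L := Finset.mem_union_right _ hi
    have hiJ : i ∉ c.J := fun h => (Finset.disjoint_left.mp c.hdisj h) hi
    let c' : Cfg f v q B :=
      { z := flipSet c.z (X i)
        J := insert i (c.J.filter fun j => ¬ f (flipSet (flipSet c.z (X i)) (D j)) = v)
        L := (c.L.erase i).filter fun j => ¬ f (flipSet (flipSet c.z (X i)) (D j)) = v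
        C := fun j => if j = i then D i \ X i else D j
        hz := (hDprop i hiu).2 _ (hXprop i hi).1
        hdisj := by
          rw [Finset.disjoint_left]
          intro j hj hj2
          simp only [mem_insert, mem_filter, mem_erase] at hj hj2
          rcases hj with h | h
          · exact hj2.1.1 h
          · exact (Finset.disjoint_left.mp c.hdisj h.1) hj2.1.2
        hC := by
          intro j
          by_cases hji : j = i
          · subst hji
            simpa using Finset.sdiff_subset.trans (hDB j)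
          · simpa [hji] using hDB j
        hJ := by
          intro j hj
          by_cases hji : j = i
          · subst hji
            simpa using (hXprop j hi).2.2
          · simp only [mem_insert, mem_filter] at hj
            have hjJ : j ∈ c.J := by
              rcases hj with h | h
              · exact absurd h hji
              · exact h.1
            simp only [hji, if_false]
            refine le_trans ?_ (c.hJ j hjJ)
            exact_mod_cast Finset.card_le_card (hDC j)
        hJne := by
          intro j hj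
          by_cases hji : j = i
          · subst hji
            simp only [if_true]
            rw [flipSet_flipSet_sdiff c.z (hXD j)]
            exact (hDprop j hiu).1
          · simp only [mem_insert, mem_filter] at hj
            simp only [hji, if_false]
            rcases hj with h | h
            · exact absurd h hji
            · exact h.2
        hLne := by
          intro j hj
          simp only [mem_filter, mem_erase] at hj
          simp only [hj.1.1, if_false]
          exact hj.2 }
    have hc' := hmax c'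
    simp only [Cfg.pot] at hc'
    have e1 : c'.J.card =
        (c.J.filter fun j => ¬ f (flipSet (flipSet c.z (X i)) (D j)) = v).card + 1 := by
      apply Finset.card_insert_of_notMem
      intro h
      exact hiJ (Finset.mem_filter.mp h).1
    have e2 : c'.L.card =
        ((c.L.erase i).filter fun j => ¬ f (flipSet (flipSet c.z (X i)) (D j)) = v).card := rfl
    have e3 := Finset.card_filter_add_card_filter_not (s := c.J)
      (fun j => f (flipSet (flipSet c.z (X i)) (D j)) = v)
    have e4 := Finset.card_filter_add_card_filter_not (s := c.L.erase i)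
      (fun j => f (flipSet (flipSet c.z (X i)) (D j)) = v)
    have e5 := Finset.card_erase_add_one hi
    rw [e1, e2] at hc'
    generalize (c.J.filter fun j => ¬ f (flipSet (flipSet c.z (X i)) (D j)) = v).card = A1 at *
    generalize ((c.L.erase i).filter fun j =>
      ¬ f (flipSet (flipSet c.z (X i)) (D j)) = v).card = A2 at *
    generalize (c.J.filter fun j => f (flipSet (flipSet c.z (X i)) (D j)) = v).card = A3 at *
    generalize ((c.L.erase i).filter fun j =>
      f (flipSet (flipSet c.z (X i)) (D j)) = v).card = A4 at *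
    rw [← e5, ← e4, ← e3] at hc'
    nlinarith
  -- summation
  have hsum := Finset.sum_le_sum hstep
  rw [Finset.sum_const, smul_eq_mul, Finset.sum_add_distrib, Finset.sum_add_distrib,
    Finset.sum_const, smul_eq_mul, ← Finset.mul_sum] at hsum
  have hswap1 : ∑ i ∈ c.L, (c.J.filter fun j => f (flipSet (flipSet c.z (X i)) (D j)) = v).card =
      ∑ j ∈ c.J, (c.L.filter fun i => f (flipSet (flipSet c.z (X i)) (D j)) = v).card :=
    Finset.sum_card_bipartiteAbove_eq_sum_card_bipartiteBelow _
  have hbound1 : ∑ j ∈ c.J, (c.L.filter fun i =>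
      f (flipSet (flipSet c.z (X i)) (D j)) = v).card ≤ c.J.card * (b - 1) := by
    rw [← smul_eq_mul]
    apply Finset.sum_le_card_nsmul
    intro j hj
    have h1 := hkill j (Finset.mem_union_left _ hj)
    have h2 : c.L.erase j = c.L := by
      apply Finset.erase_eq_of_notMem
      intro h
      exact (Finset.disjoint_left.mp c.hdisj hj) h
    rw [h2] at h1
    omega
  have hswap2 : ∑ i ∈ c.L, ((c.L.erase i).filter fun j =>
        f (flipSet (flipSet c.z (X i)) (D j)) = v).card =
      ∑ j ∈ c.L, ((c.L.erase j).filter fun i =>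
        f (flipSet (flipSet c.z (X i)) (D j)) = v).card := by
    have key := Finset.sum_card_bipartiteAbove_eq_sum_card_bipartiteBelow
      (s := c.L) (t := c.L) (fun i j => j ≠ i ∧ f (flipSet (flipSet c.z (X i)) (D j)) = v)
    convert key using 2 with i hi j hj
    · congr 1
      ext j
      simp only [mem_filter, mem_erase, Finset.bipartiteAbove]
      tauto
    · congr 1
      ext i
      simp only [mem_filter, mem_erase, Finset.bipartiteBelow]
      tauto
  have hbound2 : ∑ j ∈ c.L, ((c.L.erase j).filter fun i =>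
      f (flipSet (flipSet c.z (X i)) (D j)) = v).card ≤ c.L.card * (b - 1) := by
    rw [← smul_eq_mul]
    apply Finset.sum_le_card_nsmul
    intro j hj
    have h1 := hkill j (Finset.mem_union_right _ hj)
    omega
  rw [hswap1, hswap2] at hsum
  obtain ⟨b', hb'⟩ : ∃ b', b = b' + 1 := ⟨b - 1, by omega⟩
  rw [hb'] at hsum hbound1 hbound2 ⊢
  simp only [Nat.add_sub_cancel] at hbound1 hbound2
  generalize ∑ j ∈ c.J, (c.L.filter fun i =>
      f (flipSet (flipSet c.z (X i)) (D j)) = v).card = S1 at *
  generalize ∑ j ∈ c.L, ((c.L.erase j).filter fun i =>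
      f (flipSet (flipSet c.z (X i)) (D j)) = v).card = S2 at *
  have h3 : (b' + 1) * c.L.card ≤ (b' + 1) * (2 * b' * c.J.card) := by nlinarith
  have h4 : c.L.card ≤ 2 * b' * c.J.card := Nat.le_of_mul_le_mul_left h3 (Nat.succ_pos _)
  nlinarith

lemma exchange_at (f : (Fin n → Bool) → Bool) (v : Bool) (p q : ℕ∞) (hp : 1 ≤ p) (hq : 1 ≤ q)
    (x : Fin n → Bool) (hx : f x = v) (hb : 1 ≤ bsVal f p (!v)) {k : ℕ}
    (B : Fin k → Finset (Fin n)) (hB2 : ∀ j, ((B j).card : ℕ∞) ≤ p + q)
    (hB3 : ∀ i j, i ≠ j → Disjoint (B i) (B j)) (hB4 : ∀ j, f (flipSet x (B j)) ≠ f x) :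
    k + 2 * bsVal f q v ≤ 4 * bsVal f p (!v) * bsVal f q v := by
  classical
  let c0 : Cfg f v q B :=
    { z := x, J := ∅, L := univ, C := B, hz := hx, hdisj := by simp, hC := fun _ => subset_rfl,
      hJ := by simp, hJne := by simp, hLne := fun i _ => hx ▸ hB4 i }
  have hbdd : BddAbove (Set.range (fun c : Cfg f v q B => c.pot (bsVal f p (!v)))) := by
    refine ⟨2 * bsVal f p (!v) * k + k, ?_⟩
    rintro _ ⟨c, rfl⟩
    simp only [Cfg.pot]
    have h1 : c.J.card ≤ k := by simpa using Finset.card_le_univ c.J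
    have h2 : c.L.card ≤ k := by simpa using Finset.card_le_univ c.L
    gcongr
  obtain ⟨c, hc⟩ := Nat.sSup_mem (⟨_, ⟨c0, rfl⟩⟩ :
    (Set.range (fun c : Cfg f v q B => c.pot (bsVal f p (!v)))).Nonempty) hbdd
  have hmax : ∀ c' : Cfg f v q B, c'.pot (bsVal f p (!v)) ≤ c.pot (bsVal f p (!v)) := by
    intro c'
    have := le_csSup hbdd ⟨c', rfl⟩
    simp only at hc
    rw [← hc] at this
    exact this
  have h1 := c.max_bound hp hq hB3 hB2 hb hmax
  have h2 := hmax c0
  have h3 := c.card_J_le hB3
  simp only [Cfg.pot, c0, Finset.card_empty, mul_zero, zero_add, Finset.card_univ,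
    Fintype.card_fin] at h2
  have h4 : k + 2 * c.J.card ≤ 4 * bsVal f p (!v) * c.J.card := by nlinarith
  obtain ⟨b', hb'⟩ : ∃ b', bsVal f p (!v) = b' + 1 := ⟨bsVal f p (!v) - 1, by omega⟩
  rw [hb'] at h4 ⊢
  nlinarith [Nat.mul_le_mul_left b' h3]

/-- **Exchange inequality** for block sensitivity with bounded block sizes. -/
theorem exchange (f : (Fin n → Bool) → Bool) (v : Bool) (p q : ℕ∞) (hp : 1 ≤ p) (hq : 1 ≤ q) :
    bsVal f (p + q) v + 2 * bsVal f q v ≤ 4 * bsVal f p (!v) * bsVal f q v := by
  classical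
  rcases Nat.eq_zero_or_pos (bsVal f (p + q) v) with h0 | hpos
  · rw [h0, zero_add]
    rcases Nat.eq_zero_or_pos (bsVal f q v) with h1 | h1
    · simp [h1]
    · obtain ⟨x, hx, hx2⟩ := bsVal_exists f q v h1
      obtain ⟨B, hB1, -, -, hB4⟩ := bsAt_mem f q x
      have hb := one_le_bsVal_not f p hp x v hx (B ⟨0, by omega⟩) (hx ▸ hB4 _)
      nlinarith
  · obtain ⟨x, hx, hx2⟩ := bsVal_exists f (p + q) v hpos
    obtain ⟨B, hB1, hB2, hB3, hB4⟩ := bsAt_mem f (p + q) x
    have hb := one_le_bsVal_not f p hp x v hx (B ⟨0, by omega⟩) (hx ▸ hB4 _)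
    rw [← hx2]
    exact exchange_at f v p q hp hq x hx hb B hB2 hB3 hB4

end Pool.Agent.Sens
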